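import Mathlib
import Pool.Agent.R405.Arr

set_option autoImplicit false

/-!
# Vojta's conjecture with multiplier ideals: ideals of hyperplane arrangements

`X = ℙ^N` over a number field `k`, `r = 1`. Fix finitely many hyperplanes `L l = 0`, defined over any
finite extension `K` of `k` and in any position. There is one finite set `Z` of hyperplanes over `k`
such that the inequality of the conjecture holds off `Z` for ALL nonzero ideal sheaves `I` generated
by forms over `k` which are products of the `L l` over `K`, ALL finite sets of places `S` and ALL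
`ε > 0`.

The multiplier ideal `I⁻` is defined by its valuative criterion: a local section `u` is in `I⁻` if and
only if `w(u) + A(w) ≥ w(I)` (written additively) for all valuations `w`, where `A(w)` is the log
discrepancy. Here `exp (-A(w))` is the norm of a generator of the canonical sheaf at the centre of `w`
in the lattice of logarithmic differential forms: the infimum of the `r` such that the generator is
`∑ g_s dlog p_{s,1} ∧ … ∧ dlog p_{s,N}` with `|g_s|_w ≤ r` (for a divisor `E` over `X` this is
`A(E) = 1 + ord_E(K_{X'/X})`). As `I⁻` is coherent it is generated by finitely many forms `u_i`.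
-/

namespace Pool.Agent.Results.MP_8865d3_nt.ArrangementIdeals

open MvPolynomial NumberField IsDedekindDomain

/-- The places of a number field: the archimedean places and the primes. -/
abbrev Place (k : Type) [Field k] [NumberField k] : Type :=
  InfinitePlace k ⊕ HeightOneSpectrum (𝓞 k)

/-- The local height `[k : ℚ] d_v λ_{I,v}` of the ideal sheaf `I` on `ℙ^N` generated by the forms
`F j` of degrees `d j`: `-log max_j (|F_j(x)|_v / max_i |x_i|_v ^ (d_j))`. The absolute value of a
prime `p` is the normalised one, with the value `(N p) ^ (-ord_p x)`; a complex place has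
multiplicity `2`, a real place has multiplicity `1`. -/
noncomputable def localHeight {k : Type} [Field k] [NumberField k] (v : Place k) {n a : ℕ}
    (d : Fin a → ℕ) (F : Fin a → MvPolynomial (Fin n) k) (x : Fin n → k) : ℝ :=
  match v with
  | Sum.inl w => w.mult * -Real.log (⨆ j, w (eval x (F j)) / (⨆ i, w (x i)) ^ d j)
  | Sum.inr p => -Real.log (⨆ j, FinitePlace.mk p (eval x (F j)) /
      (⨆ i, FinitePlace.mk p (x i)) ^ d j)

/-- The form `F` over `k` is a product of `d` of the linear forms `∑ L_j X_j` over `K`, times a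
constant of `K`. -/
def IsProduct {k K : Type} [Field k] [Field K] [Algebra k K] {n : ℕ} {ι : Type}
    (L : ι → Fin n → K) (d : ℕ) (F : MvPolynomial (Fin n) k) : Prop :=
  ∃ (c : K) (σ : Fin d → ι), map (algebraMap k K) F = C c * ∏ s, ∑ j, C (L (σ s) j) * X j

/-- The valuations of the function field of the projective space over `k` (real, written
multiplicatively, trivial on `k`), as functions on all forms: `w(P)` is the value of `P / X_i ^ deg P`
for an `i` with maximal `w(X_i)`. -/
def IsPlace {k : Type} [Field k] {n : ℕ} (w : Valuation (MvPolynomial (Fin n) k) NNReal) : Prop :=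
  (∀ c : k, c ≠ 0 → w (C c) = 1) ∧ (∀ i, w (X i) ≤ 1) ∧ (∃ i, w (X i) = 1) ∧
    ∀ P : MvPolynomial (Fin n) k, P ≠ 0 → w P ≠ 0

/-- The norm of the canonical form is at most `r`: in homogeneous coordinates
`dX_0 ∧ … ∧ dX_N = ∑_s (h_s / q) dlog p_{s,0} ∧ … ∧ dlog p_{s,N}` with `w(h_s / q) ≤ r` and nonzero
forms `p_{s,j}`. -/
def CanonicalNormLE {k : Type} [Field k] {n : ℕ} (w : Valuation (MvPolynomial (Fin n) k) NNReal)
    (r : NNReal) : Prop :=
  ∃ (T e : ℕ) (q : MvPolynomial (Fin n) k) (h : Fin T → MvPolynomial (Fin n) k)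
    (p : Fin T → Fin n → MvPolynomial (Fin n) k),
    q.IsHomogeneous e ∧ q ≠ 0 ∧
    (∀ s, (h s).IsHomogeneous (e + n) ∧ w (h s) ≤ r * w q) ∧
    (∀ s j, (∃ d, (p s j).IsHomogeneous d) ∧ p s j ≠ 0) ∧
    (1 : FractionRing (MvPolynomial (Fin n) k)) =
      ∑ s, algebraMap _ (FractionRing (MvPolynomial (Fin n) k)) (h s) / algebraMap _ _ q *
        (Matrix.of fun i j => algebraMap _ (FractionRing (MvPolynomial (Fin n) k))
          (pderiv i (p s j)) / algebraMap _ _ (p s j)).det

/-- The form `u` is a section of (a twist of) the multiplier ideal `I⁻` of the ideal `I` generated by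
the `F j`: for all valuations `w`, `w(u) exp (-A(w)) ≤ w(I) = max_j w(F_j)`. -/
def InMultiplierIdeal {k : Type} [Field k] {n a : ℕ} (F : Fin a → MvPolynomial (Fin n) k)
    (u : MvPolynomial (Fin n) k) : Prop :=
  ∀ w : Valuation (MvPolynomial (Fin n) k) NNReal, IsPlace w →
    ∃ r : NNReal, (∀ r' : NNReal, r < r' → CanonicalNormLE w r') ∧ w u * r ≤ ⨆ j, w (F j)

/-- **Vojta's conjecture with multiplier ideals for all ideals of hyperplane arrangements**, with an
exceptional set which does not depend on the ideal, `S` and `ε`. Given finitely many linear forms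
`L l ≠ 0` in `N + 1` variables over an extension `K` of the number field `k`, there is a finite set
`Z` of hyperplanes over `k` such that: for all nonzero ideal sheaves `I` generated by forms `F j` over
`k` which are products of the `L l`, all families of forms `u i` in `I⁻`, all finite sets `S` of
places of `k` and all `ε > 0` there is a constant `C` with
`∑_{v ∈ S} (λ_{I,v}(x) - λ_{(u),v}(x)) + h_K(x) ≤ ε h(x) + C` for all rational points `x` off `Z` which
are not common zeros of the `u i`. (If the `u i` generate `I⁻`, then `λ_{(u)} = λ_{I⁻}`, and there are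
no common zeros off `Z`.) All heights are relative to `k`, not divided by `[k : ℚ]`;
`h_K = -(N + 1) h`. -/
theorem result (k K : Type) [Field k] [NumberField k] [Field K] [NumberField K] [Algebra k K]
    (N : ℕ) (ι : Type) [Finite ι] (L : ι → Fin (N + 1) → K) (hL : ∀ l, L l ≠ 0) :
    ∃ Z : Finset (Fin (N + 1) → k), (∀ z ∈ Z, z ≠ 0) ∧
      ∀ (a : ℕ) (F : Fin a → MvPolynomial (Fin (N + 1)) k) (d : Fin a → ℕ),
        (∀ j, IsProduct L (d j) (F j)) → (∃ j, F j ≠ 0) →
      ∀ (b : ℕ) (u : Fin b → MvPolynomial (Fin (N + 1)) k) (e : Fin b → ℕ),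
        (∀ i, (u i).IsHomogeneous (e i) ∧ InMultiplierIdeal F (u i)) →
      ∀ (S : Finset (Place k)) (ε : ℝ), 0 < ε → ∃ C : ℝ, ∀ x : Fin (N + 1) → k, x ≠ 0 →
        (∀ z ∈ Z, ∑ j, z j * x j ≠ 0) → (∃ i, eval x (u i) ≠ 0) →
        ∑ v ∈ S, (localHeight v d F x - localHeight v e u x) - (N + 1) * Height.logHeight x ≤
          ε * Height.logHeight x + C := by
  classical
  have := Fintype.ofFinite ι
  obtain ⟨Z, hZ, hmain⟩ := Pool.Agent.R405.arrT (k := k) (Nat.succ_le_succ (Nat.zero_le N)) L hL
  refine ⟨Z, hZ, fun a F d hF hne b u e hu S ε hε => ?_⟩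
  choose c σ hfac using hF
  obtain ⟨C, hC⟩ := hmain a F c d σ hfac hne b u e (fun i => (hu i).1) (fun i => (hu i).2) S ε hε
  refine ⟨C, fun x hx hZx hux => ?_⟩
  have h1 := hC x hx hZx hux
  have h2 : ∑ v ∈ S, (localHeight v d F x - localHeight v e u x) =
      ∑ v ∈ S, Pool.Agent.W180.OP.wt v * (Pool.Agent.R405.lamI (Pool.Agent.W180.OP.av v) d F x -
        Pool.Agent.R405.lamI (Pool.Agent.W180.OP.av v) e u x) := by
    refine Finset.sum_congr rfl fun v _ => ?_
    rcases v with w | p
    · exact (mul_sub _ _ _).symm
    · exact (one_mul _).symm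
  rw [h2]
  push_cast at h1
  linarith

end Pool.Agent.Results.MP_8865d3_nt.ArrangementIdeals
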