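import Mathlib
import Pool.Agent.R405.TP5

set_option autoImplicit false

/-!
# Vojta's conjecture with multiplier ideals: rational arrangements, points with few places

`X = ℙ^N` over `ℚ` and `S = {∞}`. Fix finitely many hyperplanes `L l = 0` over `ℚ`, in any position.
There is one finite set `Z` of hyperplanes over `ℚ` such that the inequality of the conjecture holds
off `Z`, even with a constant in place of `ε h(x) + d(x) + O(1)`, for ALL nonzero ideal sheaves `I`
generated by products of the `L l`, and ALL points whose field has at most two archimedean places: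
the rational points, all quadratic points, and the points over all complex cubic and all totally
complex quartic fields. For points over fields with `s > 2` archimedean places it holds with the
additional term `(s/2 - 1) (N + 1) h(x)` on the right side.

The multiplier ideal `I⁻` is defined by its valuative criterion: a local section `u` is in `I⁻` if and
only if `w(u) + A(w) ≥ w(I)` (written additively) for all valuations `w`, where `A(w)` is the log
discrepancy. Here `exp (-A(w))` is the norm of a generator of the canonical sheaf at the centre of `w`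
in the lattice of logarithmic differential forms: the infimum of the `r` such that the generator is
`∑ g_s dlog p_{s,1} ∧ … ∧ dlog p_{s,N}` with `|g_s|_w ≤ r` (for a divisor `E` over `X` this is
`A(E) = 1 + ord_E(K_{X'/X})`). As `I⁻` is coherent it is generated by finitely many forms `u_i`.
-/

namespace Pool.Agent.Results.MP_8865d3_nt.FewPlaces

open MvPolynomial NumberField

/-- The local height `λ_I(x, ∞)` of the ideal sheaf `I` on `ℙ^N` generated by the forms `F j` over `ℚ`
of degrees `d j`, at a point over the number field `E`: the average of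
`-log max_j (|F_j(x)|_w / max_i |x_i|_w ^ (d_j))` over the archimedean places `w` of `E` with the
weights `[E_w : ℝ] / [E : ℚ]`. -/
noncomputable def localHeight {E : Type} [Field E] [NumberField E] {n a : ℕ}
    (d : Fin a → ℕ) (F : Fin a → MvPolynomial (Fin n) ℚ) (x : Fin n → E) : ℝ :=
  (∑ w : InfinitePlace E, (w.mult : ℝ) *
    -Real.log (⨆ j, w (aeval x (F j)) / (⨆ i, w (x i)) ^ d j)) / Module.finrank ℚ E

/-- The absolute logarithmic height. -/
noncomputable def height {E : Type} [Field E] [NumberField E] {n : ℕ} (x : Fin n → E) : ℝ :=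
  Height.logHeight x / Module.finrank ℚ E

/-- The form `F` is a constant times a product of `d` of the linear forms `∑ L_j X_j`. -/
def IsProduct {n : ℕ} {ι : Type} (L : ι → Fin n → ℚ) (d : ℕ) (F : MvPolynomial (Fin n) ℚ) : Prop :=
  ∃ (c : ℚ) (σ : Fin d → ι), F = C c * ∏ s, ∑ j, C (L (σ s) j) * X j

/-- The valuations of the function field of the projective space over `k` (real, written
multiplicatively, trivial on `k`), as functions on all forms: `w(P)` is the value of `P / X_i ^ deg P`
for an `i` with maximal `w(X_i)`. -/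
def IsPlace {k : Type} [Field k] {n : ℕ} (w : Valuation (MvPolynomial (Fin n) k) NNReal) : Prop :=
  (∀ c : k, c ≠ 0 → w (C c) = 1) ∧ (∀ i, w (X i) ≤ 1) ∧ (∃ i, w (X i) = 1) ∧
    ∀ P : MvPolynomial (Fin n) k, P ≠ 0 → w P ≠ 0

/-- The norm of the canonical form is at most `r`: in homogeneous coordinates
`dX_0 ∧ … ∧ dX_N = ∑_s (h_s / q) dlog p_{s,0} ∧ … ∧ dlog p_{s,N}` with `w(h_s / q) ≤ r` and nonzero
forms `p_{s,j}`. -/
def CanonicalNormLE {k : Type} [Field k] {n : ℕ} (w : Valuation (MvPolynomial (Fin n) k) NNReal)
    (r : NNReal) : Prop :=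
  ∃ (T e : ℕ) (q : MvPolynomial (Fin n) k) (h : Fin T → MvPolynomial (Fin n) k)
    (p : Fin T → Fin n → MvPolynomial (Fin n) k),
    q.IsHomogeneous e ∧ q ≠ 0 ∧
    (∀ s, (h s).IsHomogeneous (e + n) ∧ w (h s) ≤ r * w q) ∧
    (∀ s j, (∃ d, (p s j).IsHomogeneous d) ∧ p s j ≠ 0) ∧
    (1 : FractionRing (MvPolynomial (Fin n) k)) =
      ∑ s, algebraMap _ (FractionRing (MvPolynomial (Fin n) k)) (h s) / algebraMap _ _ q *
        (Matrix.of fun i j => algebraMap _ (FractionRing (MvPolynomial (Fin n) k))
          (pderiv i (p s j)) / algebraMap _ _ (p s j)).det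

/-- The form `u` is a section of (a twist of) the multiplier ideal `I⁻` of the ideal `I` generated by
the `F j`: for all valuations `w`, `w(u) exp (-A(w)) ≤ w(I) = max_j w(F_j)`. -/
def InMultiplierIdeal {k : Type} [Field k] {n a : ℕ} (F : Fin a → MvPolynomial (Fin n) k)
    (u : MvPolynomial (Fin n) k) : Prop :=
  ∀ w : Valuation (MvPolynomial (Fin n) k) NNReal, IsPlace w →
    ∃ r : NNReal, (∀ r' : NNReal, r < r' → CanonicalNormLE w r') ∧ w u * r ≤ ⨆ j, w (F j)

/-- **Vojta's conjecture with multiplier ideals for rational arrangements at points with at most two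
archimedean places.** Given finitely many linear forms `L l ≠ 0` over `ℚ` in `N + 1` variables, there is
a finite set `Z` of hyperplanes over `ℚ` such that: for all nonzero ideal sheaves `I` generated by
forms `F j` which are products of the `L l`, and all families of forms `u i` in `I⁻` there is a constant
`C` such that for all number fields `E`, `s` the number of archimedean places of `E`, and all points `x`
over `E` off `Z` which are not common zeros of the `u i`:
`h_K(x) + λ_I(x, ∞) - λ_{(u)}(x, ∞) ≤ C` if `s ≤ 2`, and in general it is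
`≤ (N + 1) max(0, s/2 - 1) h(x) + max(1, s/2) C`. (If the `u i` generate `I⁻`, then
`λ_{(u)} = λ_{I⁻}`.) -/
theorem result (N : ℕ) (ι : Type) [Finite ι] (L : ι → Fin (N + 1) → ℚ) (hL : ∀ l, L l ≠ 0) :
    ∃ Z : Finset (Fin (N + 1) → ℚ), (∀ z ∈ Z, z ≠ 0) ∧
      ∀ (a : ℕ) (F : Fin a → MvPolynomial (Fin (N + 1)) ℚ) (d : Fin a → ℕ),
        (∀ j, IsProduct L (d j) (F j)) → (∃ j, F j ≠ 0) →
      ∀ (b : ℕ) (u : Fin b → MvPolynomial (Fin (N + 1)) ℚ) (e : Fin b → ℕ),
        (∀ i, (u i).IsHomogeneous (e i) ∧ InMultiplierIdeal F (u i)) →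
      ∃ C : ℝ, ∀ (E : Type) [Field E] [NumberField E] (x : Fin (N + 1) → E), x ≠ 0 →
        (∀ z ∈ Z, ∑ j, algebraMap ℚ E (z j) * x j ≠ 0) → (∃ i, aeval x (u i) ≠ 0) →
        (Fintype.card (InfinitePlace E) ≤ 2 →
          -(N + 1) * height x + localHeight d F x - localHeight e u x ≤ C) ∧
        -(N + 1) * height x + localHeight d F x - localHeight e u x ≤
          (N + 1) * max 0 ((Fintype.card (InfinitePlace E) : ℝ) / 2 - 1) * height x +
            max 1 ((Fintype.card (InfinitePlace E) : ℝ) / 2) * C := by
  classical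
  have := Fintype.ofFinite ι
  set en := Fintype.equivFin ι with hen
  obtain ⟨Z, hZ, hmain⟩ := Pool.Agent.R405.TP.tpI (N := N + 1) (by omega)
    (fun l => L (en.symm l)) (fun l => hL _)
  refine ⟨Z, hZ, fun a F d hF hne b u e hu => ?_⟩
  choose c σ hfac using hF
  obtain ⟨C, hC0, hC⟩ := hmain a F c d (fun j s => en (σ j s)) (fun j => by
    rw [hfac]
    congr 1
    refine Finset.prod_congr rfl fun s _ => ?_
    rw [Equiv.symm_apply_apply]
    rfl) hne b u e (fun i => (hu i).1) (fun i => (hu i).2)
  refine ⟨C, fun E _ _ x hx hZx hux => ?_⟩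
  have h1 := hC E x hx hZx hux
  have hd : (0 : ℝ) < Module.finrank ℚ E := by exact_mod_cast Module.finrank_pos
  set m : ℝ := max 1 ((Fintype.card (InfinitePlace E) : ℝ) / 2) with hm
  have h2 : localHeight d F x - localHeight e u x ≤ m * ((N + 1) * height x + C) := by
    unfold localHeight height
    rw [← sub_div, div_le_iff₀ hd, ← Finset.sum_sub_distrib]
    have h3 : ∑ w : InfinitePlace E, ((w.mult : ℝ) *
        -Real.log (⨆ j, w (aeval x (F j)) / (⨆ i, w (x i)) ^ d j) - (w.mult : ℝ) *
        -Real.log (⨆ j, w (aeval x (u j)) / (⨆ i, w (x i)) ^ e j)) =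
        ∑ w : InfinitePlace E, (w.mult : ℝ) *
        (-Real.log (⨆ j, w (aeval x (F j)) / (⨆ i, w (x i)) ^ d j) -
        -Real.log (⨆ j, w (aeval x (u j)) / (⨆ i, w (x i)) ^ e j)) :=
      Finset.sum_congr rfl fun w _ => (mul_sub _ _ _).symm
    rw [h3]
    refine h1.trans (le_of_eq ?_)
    push_cast
    field_simp
  have h3 : m = 1 + max 0 ((Fintype.card (InfinitePlace E) : ℝ) / 2 - 1) := by
    rw [hm, ← max_add_add_left]
    congr 1 <;> ring
  have h4 : -(N + 1) * height x + localHeight d F x - localHeight e u x ≤
      (N + 1) * max 0 ((Fintype.card (InfinitePlace E) : ℝ) / 2 - 1) * height x + m * C := by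
    have h5 : m * ((N + 1) * height x + C) = (N + 1) * height x +
        (N + 1) * max 0 ((Fintype.card (InfinitePlace E) : ℝ) / 2 - 1) * height x + m * C := by
      rw [h3]; ring
    rw [h5] at h2
    linarith
  refine ⟨fun hs => ?_, h4⟩
  have h6 : (Fintype.card (InfinitePlace E) : ℝ) / 2 - 1 ≤ 0 := by
    have : (Fintype.card (InfinitePlace E) : ℝ) ≤ 2 := by exact_mod_cast hs
    linarith
  have h7 : m = 1 := by
    rw [h3, max_eq_left h6, add_zero]
  rw [h7, max_eq_left h6] at h4
  linarith

end Pool.Agent.Results.MP_8865d3_nt.FewPlaces
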