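import Mathlib
import Pool.Agent.R405.IQ5

set_option autoImplicit false

/-!
# Vojta's conjecture with multiplier ideals at the imaginary quadratic points of projective space

`X = ℙ^N` over `ℚ`, `S = {∞}` and `r = 2`. Fix finitely many hyperplanes `L l = 0`, with coefficients
in a number field `K` which is embedded in `ℝ`, in any position. There is one finite set `Z` of
hyperplanes over `ℚ` such that the inequality of the conjecture holds off `Z`, for ALL nonzero ideal
sheaves `I` generated by forms over `ℚ` which are products of the `L l` over `K`, ALL `ε > 0` and ALL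
points of degree at most two over `ℚ` whose field has only one archimedean place: the rational points
and the points over all imaginary quadratic fields.

The multiplier ideal `I⁻` is defined by its valuative criterion: a local section `u` is in `I⁻` if and
only if `w(u) + A(w) ≥ w(I)` (written additively) for all valuations `w`, where `A(w)` is the log
discrepancy. Here `exp (-A(w))` is the norm of a generator of the canonical sheaf at the centre of `w`
in the lattice of logarithmic differential forms: the infimum of the `r` such that the generator is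
`∑ g_s dlog p_{s,1} ∧ … ∧ dlog p_{s,N}` with `|g_s|_w ≤ r` (for a divisor `E` over `X` this is
`A(E) = 1 + ord_E(K_{X'/X})`). As `I⁻` is coherent it is generated by finitely many forms `u_i`.
-/

namespace Pool.Agent.Results.MP_8865d3_nt.ImaginaryQuadraticPoints

open MvPolynomial NumberField

/-- The local height `λ_I(x, ∞)` of the ideal sheaf `I` on `ℙ^N` generated by the forms `F j` over `ℚ`
of degrees `d j`, at a point over a number field `E` with only one archimedean place `w`:
`-log max_j (|F_j(x)| / max_i |x_i| ^ (d_j))`. The average over the places of `E` above `∞` with the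
weights `[E_w : ℝ] / [E : ℚ]` has one term, with the weight `1`. -/
noncomputable def localHeight {E : Type} [Field E] [NumberField E] (w : InfinitePlace E) {n a : ℕ}
    (d : Fin a → ℕ) (F : Fin a → MvPolynomial (Fin n) ℚ) (x : Fin n → E) : ℝ :=
  -Real.log (⨆ j, w (aeval x (F j)) / (⨆ i, w (x i)) ^ d j)

/-- The absolute logarithmic height. -/
noncomputable def height {E : Type} [Field E] [NumberField E] {n : ℕ} (x : Fin n → E) : ℝ :=
  Height.logHeight x / Module.finrank ℚ E

/-- The form `F` over `ℚ` is a product of `d` of the linear forms `∑ L_j X_j` over `K`, times a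
constant of `K`. -/
def IsProduct {K : Type} [Field K] [Algebra ℚ K] {n : ℕ} {ι : Type}
    (L : ι → Fin n → K) (d : ℕ) (F : MvPolynomial (Fin n) ℚ) : Prop :=
  ∃ (c : K) (σ : Fin d → ι), map (algebraMap ℚ K) F = C c * ∏ s, ∑ j, C (L (σ s) j) * X j

/-- The valuations of the function field of the projective space over `k` (real, written
multiplicatively, trivial on `k`), as functions on all forms: `w(P)` is the value of `P / X_i ^ deg P`
for an `i` with maximal `w(X_i)`. -/
def IsPlace {k : Type} [Field k] {n : ℕ} (w : Valuation (MvPolynomial (Fin n) k) NNReal) : Prop :=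
  (∀ c : k, c ≠ 0 → w (C c) = 1) ∧ (∀ i, w (X i) ≤ 1) ∧ (∃ i, w (X i) = 1) ∧
    ∀ P : MvPolynomial (Fin n) k, P ≠ 0 → w P ≠ 0

/-- The norm of the canonical form is at most `r`: in homogeneous coordinates
`dX_0 ∧ … ∧ dX_N = ∑_s (h_s / q) dlog p_{s,0} ∧ … ∧ dlog p_{s,N}` with `w(h_s / q) ≤ r` and nonzero
forms `p_{s,j}`. -/
def CanonicalNormLE {k : Type} [Field k] {n : ℕ} (w : Valuation (MvPolynomial (Fin n) k) NNReal)
    (r : NNReal) : Prop :=
  ∃ (T e : ℕ) (q : MvPolynomial (Fin n) k) (h : Fin T → MvPolynomial (Fin n) k)
    (p : Fin T → Fin n → MvPolynomial (Fin n) k),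
    q.IsHomogeneous e ∧ q ≠ 0 ∧
    (∀ s, (h s).IsHomogeneous (e + n) ∧ w (h s) ≤ r * w q) ∧
    (∀ s j, (∃ d, (p s j).IsHomogeneous d) ∧ p s j ≠ 0) ∧
    (1 : FractionRing (MvPolynomial (Fin n) k)) =
      ∑ s, algebraMap _ (FractionRing (MvPolynomial (Fin n) k)) (h s) / algebraMap _ _ q *
        (Matrix.of fun i j => algebraMap _ (FractionRing (MvPolynomial (Fin n) k))
          (pderiv i (p s j)) / algebraMap _ _ (p s j)).det

/-- The form `u` is a section of (a twist of) the multiplier ideal `I⁻` of the ideal `I` generated by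
the `F j`: for all valuations `w`, `w(u) exp (-A(w)) ≤ w(I) = max_j w(F_j)`. -/
def InMultiplierIdeal {k : Type} [Field k] {n a : ℕ} (F : Fin a → MvPolynomial (Fin n) k)
    (u : MvPolynomial (Fin n) k) : Prop :=
  ∀ w : Valuation (MvPolynomial (Fin n) k) NNReal, IsPlace w →
    ∃ r : NNReal, (∀ r' : NNReal, r < r' → CanonicalNormLE w r') ∧ w u * r ≤ ⨆ j, w (F j)

/-- **Vojta's conjecture with multiplier ideals at imaginary quadratic points**, for all ideals of
arrangements of real hyperplanes. Given finitely many linear forms `L l ≠ 0` in `N + 1` variables over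
a number field `K` with a real embedding, there is a finite set `Z` of hyperplanes over `ℚ` such that:
for all nonzero ideal sheaves `I` generated by forms `F j` over `ℚ` which are products of the `L l`,
all families of forms `u i` in `I⁻` and all `ε > 0` there is a constant `C` with
`h_K(x) + λ_I(x, ∞) - λ_{(u)}(x, ∞) ≤ ε h(x) + C` for all number fields `E` of degree at most two over
`ℚ` with only one archimedean place and all points `x` over `E` off `Z` which are not common zeros of
the `u i`. (If the `u i` generate `I⁻`, then `λ_{(u)} = λ_{I⁻}`.) -/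
theorem result (N : ℕ) (K : Type) [Field K] [NumberField K] (φ : K →+* ℝ) (ι : Type) [Finite ι]
    (L : ι → Fin (N + 1) → K) (hL : ∀ l, L l ≠ 0) :
    ∃ Z : Finset (Fin (N + 1) → ℚ), (∀ z ∈ Z, z ≠ 0) ∧
      ∀ (a : ℕ) (F : Fin a → MvPolynomial (Fin (N + 1)) ℚ) (d : Fin a → ℕ),
        (∀ j, IsProduct L (d j) (F j)) → (∃ j, F j ≠ 0) →
      ∀ (b : ℕ) (u : Fin b → MvPolynomial (Fin (N + 1)) ℚ) (e : Fin b → ℕ),
        (∀ i, (u i).IsHomogeneous (e i) ∧ InMultiplierIdeal F (u i)) →
      ∀ ε : ℝ, 0 < ε → ∃ C : ℝ, ∀ (E : Type) [Field E] [NumberField E], Module.finrank ℚ E ≤ 2 →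
        ∀ w : InfinitePlace E, (∀ w' : InfinitePlace E, w' = w) →
        ∀ x : Fin (N + 1) → E, x ≠ 0 → (∀ z ∈ Z, ∑ j, algebraMap ℚ E (z j) * x j ≠ 0) →
        (∃ i, aeval x (u i) ≠ 0) →
        -(N + 1) * height x + localHeight w d F x - localHeight w e u x ≤ ε * height x + C := by
  classical
  have := Fintype.ofFinite ι
  obtain ⟨Z, hZ, hmain⟩ := Pool.Agent.R405.IQ.iqI (N + 1) (by omega) K φ L hL
  refine ⟨Z, hZ, fun a F d hF hne b u e hu ε hε => ?_⟩
  choose c σ hfac using hF
  obtain ⟨C, hC⟩ := hmain a F c d σ hfac hne b u e (fun i => (hu i).1) (fun i => (hu i).2) ε hε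
  refine ⟨C, fun E _ _ hE w hw x hx hZx hux => ?_⟩
  have h1 := hC E hE w hw x hx hZx hux
  push_cast at h1
  unfold localHeight height
  linarith

end Pool.Agent.Results.MP_8865d3_nt.ImaginaryQuadraticPoints
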