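import Mathlib
import Pool.Agent.R870.RI.Main

set_option autoImplicit false

/-!
# The inequality with multiplier ideals for all monomial ideals in almost all systems of hypersurfaces

`X = ℙ^n` over `ℚ`, `D_i : F_i = 0` (`i ≤ s`) hypersurfaces of degrees `d_i`, `D = ∑ d_i ≥ 1`, `S` a
finite set of primes (together with the archimedean place). For a finite nonempty `E ⊂ ℕ^s` let
`I = (F^a : a ∈ E)`, `F^a = ∏ F_i^(a_i)`. If the `D_i` have simple normal crossings, then (Howald) the
ideal `I^-` is generated by the `F^b` with `b + (1, …, 1)` in the Newton polyhedron of `E`.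

For all `ε > 0` and `κ < s` there are `δ > 0`, `C`, `C₀` such that for all `H ≥ 1`, for all but a
proportion `C H ^ (-δ)` of the systems `(F_1, …, F_s)` with integer coefficients of absolute value at
most `H`, the inequality

  `h_K(x) + ∑_{v ∈ S} λ_I(x, v) - ∑_{v ∈ S} λ_{I^-}(x, v) ≤ ε h(x) + (s - κ) log H + C₀`

holds for ALL these ideals `I` and ALL rational points `x` outside of the `D_i` of height at most
`H ^ ((s + D - κ) / D)`.
-/

namespace Pool.Agent.Results.MP_8865d3_nt.RandomDivisorIdeals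

open Pool.Agent.R870.RC

theorem result (n s : ℕ) (d : Fin s → ℕ) (hD : 1 ≤ ∑ i, d i) (S : Finset ℕ)
    (hS : ∀ p ∈ S, p.Prime) (ε κ : ℝ) (hε : 0 < ε) (hκ : κ < s) :
    ∃ δ C C₀ : ℝ, 0 < δ ∧ ∀ H : ℕ, 1 ≤ H →
      ((BadI n d S ε κ C₀ H).ncard : ℝ) ≤ C * (H : ℝ) ^ (-δ) * ((Systems n d H).ncard : ℝ) :=
  random_ideals n s d hD S hS ε κ hε hκ

end Pool.Agent.Results.MP_8865d3_nt.RandomDivisorIdeals
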